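import Pool.Agent.H83.UE.Targets3
import Pool.Agent.H83.UDA.MAIN

/-! MP_75a732_an, module MNE (helper83). -/

set_option autoImplicit false

open Polynomial MeasureTheory Filter Topology Set
open scoped OnePoint ComplexConjugate ComplexOrder Laplacian ENNReal

namespace Pool.Agent.H83.UDB

open Pool.Agent.H83.UE Pool.Agent.H83.UDA

theorem pf_MNE (h1 : T_BD) (h2 : T_SW) (h3 : T_DIE) (h4 : T_OFE) : T_MNE := by
  intro k m d hd hmk g E κ G μ hD S hS I J χ hχ hχc
  obtain ⟨hgood, hG, hμp, hμ⟩ := hD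
  have hlimp : ∀ u : Fin k → ℂ → ℂ, (∀ l, ContDiff ℝ 2 (u l)) → (∀ l, HasCompactSupport (u l)) →
      Tendsto (fun n => pairing g n S I J (fun x => ∏ l, u l (x l))) atTop
        (𝓝 (limVal μ S I J (fun x => ∏ l, u l (x l)))) := by
    intro u hu hc
    by_cases hIJ : I = J
    · subst hIJ
      unfold limVal
      rw [if_pos rfl]
      exact h3 k m d hd hmk g E κ G μ ⟨hgood, hG, hμp, hμ⟩ u hu hc S hS I
    · unfold limVal
      rw [if_neg hIJ]
      exact h4 k m d hd hmk g E κ hgood u hu hc S hS I J hIJ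
  obtain ⟨R, hR, hap⟩ := h2 k χ hχ hχc
  obtain ⟨Cb, hCb, hbd⟩ := h1 k m d hd hmk g R
  obtain ⟨B, hB⟩ : ∃ B : ℝ, ∀ x, ‖χ x‖ ≤ B := hχc.exists_bound_of_continuous hχ
  have hB' : ∀ x, ‖χ x‖ ≤ |B| := fun x => (hB x).trans (le_abs_self _)
  have hint : ∀ n, Integrable (fun z => pushCoeff g n I J χ z * S.h z I J) S.σ := fun n =>
    (hbd S I J n |B| χ (abs_nonneg _) hχ hB' hR).1
  have := lim_lf μ hμp I
  set K : Set (Fin k → ℂ) := Set.pi Set.univ fun _ => Metric.closedBall (0 : ℂ) R with hK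
  have hKc : IsCompact K := isCompact_univ_pi fun _ => isCompact_closedBall _ _
  set M : ℝ := (limMeas μ I).real K with hM
  have hM0 : 0 ≤ M := measureReal_nonneg
  have hKfin : limMeas μ I K < ⊤ := hKc.measure_lt_top
  -- integral bound
  have hlimbd : ∀ (ψ : (Fin k → ℂ) → ℂ) (ε : ℝ), 0 ≤ ε → (∀ x, ‖ψ x‖ ≤ ε) →
      (∀ x, (∃ l, R ≤ ‖x l‖) → ψ x = 0) → ‖∫ x, ψ x ∂(limMeas μ I)‖ ≤ ε * M := by
    intro ψ ε hε hψ hs
    have hz : ∀ x, x ∉ K → ψ x = 0 := by
      intro x hx
      refine hs x ?_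
      by_contra hne
      push Not at hne
      exact hx fun l _ => by simpa using (hne l).le
    rw [← setIntegral_eq_integral_of_forall_compl_eq_zero hz]
    exact norm_setIntegral_le_of_norm_le_const hKfin fun x _ => hψ x
  have hlimsub : ∀ ψ ψ' : (Fin k → ℂ) → ℂ, Continuous ψ → Continuous ψ' →
      HasCompactSupport ψ → HasCompactSupport ψ' →
      limVal μ S I J (fun x => ψ x - ψ' x) = limVal μ S I J ψ - limVal μ S I J ψ' := by
    intro ψ ψ' a b c e
    unfold limVal
    split_ifs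
    · rw [integral_sub (a.integrable_of_hasCompactSupport c) (b.integrable_of_hasCompactSupport e),
        mul_sub]
    · simp
  have hlimnorm : ∀ (ψ : (Fin k → ℂ) → ℂ) (ε : ℝ), 0 ≤ ε → (∀ x, ‖ψ x‖ ≤ ε) →
      (∀ x, (∃ l, R ≤ ‖x l‖) → ψ x = 0) → ‖limVal μ S I J ψ‖ ≤ S.c I * (ε * M) := by
    intro ψ ε hε hψ hs
    unfold limVal
    have hc0 : (0 : ℝ) ≤ S.c I := NNReal.coe_nonneg _
    split_ifs
    · rw [norm_mul]
      have : ‖((S.c I : NNReal) : ℂ)‖ = S.c I := by simp
      rw [this]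
      exact mul_le_mul_of_nonneg_left (hlimbd ψ ε hε hψ hs) hc0
    · rw [norm_zero]
      positivity
  rw [Metric.tendsto_atTop]
  intro ε hε
  set A : ℝ := Cb * Real.sqrt (S.c I * S.c J) + S.c I * M + 1 with hA
  have hA0 : 0 < A := by
    have h1 : 0 ≤ Cb * Real.sqrt (S.c I * S.c J) := mul_nonneg hCb (Real.sqrt_nonneg _)
    have h2 : (0 : ℝ) ≤ S.c I * M := mul_nonneg (NNReal.coe_nonneg _) hM0
    linarith
  set δ : ℝ := ε / (2 * A) with hδ
  have hδ0 : 0 < δ := by positivity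
  obtain ⟨N, c, u, hu, hus, happ⟩ := hap δ hδ0
  have huc : ∀ a l, HasCompactSupport (u a l) := fun a l => hcs_one (hus a l)
  set f : Fin N → (Fin k → ℂ) → ℂ := fun a x => ∏ l, u a l (x l) with hf
  have hfc : ∀ a, Continuous (f a) := fun a =>
    continuous_finsetProd _ fun l _ => (hu a l).continuous.comp (continuous_apply l)
  have hfs : ∀ a x, (∃ l, R ≤ ‖x l‖) → f a x = 0 := by
    rintro a x ⟨l, hl⟩
    exact Finset.prod_eq_zero (Finset.mem_univ l) (hus a l (x l) hl)
  have hfint : ∀ n a, Integrable (fun z => pushCoeff g n I J (f a) z * S.h z I J) S.σ := by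
    intro n a
    obtain ⟨Ba, hBa0, hBa⟩ := prod_bdd (fun l => (hu a l).continuous) (huc a)
    exact (hbd S I J n Ba (f a) hBa0 (hfc a) hBa (hfs a)).1
  set χ' : (Fin k → ℂ) → ℂ := fun x => ∑ a, c a * f a x with hχ'
  have hχ'c : Continuous χ' := continuous_finsetSum _ fun a _ => continuous_const.mul (hfc a)
  have hχ's : ∀ x, (∃ l, R ≤ ‖x l‖) → χ' x = 0 := by
    intro x hx
    simp only [hχ']
    exact Finset.sum_eq_zero fun a _ => by rw [hfs a x hx, mul_zero]
  have hT : Tendsto (fun n => pairing g n S I J χ') atTop (𝓝 (limVal μ S I J χ')) := by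
    have e1 : ∀ n, pairing g n S I J χ' = ∑ a, c a * pairing g n S I J (f a) := fun n =>
      pairing_sum g n S I J c f (hfint n)
    have e2 : limVal μ S I J χ' = ∑ a, c a * limVal μ S I J (f a) := by
      unfold limVal
      split_ifs
      · have hI : ∀ a, Integrable (f a) (limMeas μ I) := fun a =>
          (hfc a).integrable_of_hasCompactSupport (hcs_of_support (hfs a))
        simp only [hχ']
        rw [integral_finsetSum _ fun a _ => (hI a).const_mul (c a), Finset.mul_sum]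
        refine Finset.sum_congr rfl fun a _ => ?_
        rw [integral_const_mul]
        ring
      · simp
    simp_rw [e1]
    rw [e2]
    refine tendsto_finsetSum _ fun a _ => Tendsto.const_mul (c a) ?_
    exact hlimp (u a) (hu a) (huc a)
  rw [Metric.tendsto_atTop] at hT
  obtain ⟨n0, hn0⟩ := hT (ε / 2) (by positivity)
  refine ⟨n0, fun n hn => ?_⟩
  have hdiff : ∀ x, ‖χ x - χ' x‖ ≤ δ := happ
  have hds : ∀ x, (∃ l, R ≤ ‖x l‖) → χ x - χ' x = 0 := fun x hx => by
    rw [hR x hx, hχ's x hx, sub_zero]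
  have hdc : Continuous fun x => χ x - χ' x := hχ.sub hχ'c
  have hχ'int : Integrable (fun z => pushCoeff g n I J χ' z * S.h z I J) S.σ :=
    int_sum g n S I J c f (hfint n)
  have b1 : ‖pairing g n S I J χ - pairing g n S I J χ'‖ ≤
      δ * Cb * Real.sqrt (S.c I * S.c J) := by
    rw [← pairing_sub g n S I J χ χ' (hint n) hχ'int]
    exact (hbd S I J n δ _ hδ0.le hdc hdiff hds).2
  have b2 : ‖limVal μ S I J χ - limVal μ S I J χ'‖ ≤ S.c I * (δ * M) := by
    rw [← hlimsub χ χ' hχ hχ'c hχc (hcs_of_support hχ's)]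
    exact hlimnorm _ δ hδ0.le hdiff hds
  have b3 : ‖pairing g n S I J χ' - limVal μ S I J χ'‖ < ε / 2 := by
    have := hn0 n hn
    rwa [dist_eq_norm] at this
  rw [dist_eq_norm]
  have htri : ‖pairing g n S I J χ - limVal μ S I J χ‖ ≤
      ‖pairing g n S I J χ - pairing g n S I J χ'‖ +
      ‖pairing g n S I J χ' - limVal μ S I J χ'‖ +
      ‖limVal μ S I J χ - limVal μ S I J χ'‖ := by
    have e : pairing g n S I J χ - limVal μ S I J χ =
        (pairing g n S I J χ - pairing g n S I J χ') +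
        (pairing g n S I J χ' - limVal μ S I J χ') -
        (limVal μ S I J χ - limVal μ S I J χ') := by ring
    rw [e]
    exact (norm_sub_le _ _).trans (add_le_add_left (norm_add_le _ _) _)
  have hsum : δ * Cb * Real.sqrt (S.c I * S.c J) + S.c I * (δ * M) ≤ ε / 2 := by
    have e : δ * Cb * Real.sqrt (S.c I * S.c J) + S.c I * (δ * M) = δ * (A - 1) := by
      rw [hA]; ring
    have e2 : δ * A = ε / 2 := by
      rw [hδ]; field_simp
    rw [e]
    nlinarith
  linarith

end Pool.Agent.H83.UDB
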