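import Pool.Agent.H83.UDA.All
import Pool.Agent.H1.UDB.CNT
import Pool.Agent.H1.UDB.CSG
import Pool.Agent.H98.UDB.CUT
import Pool.Agent.H67.UDB.EXC
import Pool.Agent.H1.UDB.FCT
import Pool.Agent.H14.UDB.GNR
import Pool.Agent.H45.UDB.HFB
import Pool.Agent.H82.UDB.KMG
import Pool.Agent.H11.UDB.LE1
import Pool.Agent.H1.UDB.LE2
import Pool.Agent.H58.UDB.LIN
import Pool.Agent.H86.UDB.LJE
import Pool.Agent.H88.UDB.LJN
import Pool.Agent.H16.UDB.PIG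
import Pool.Agent.H19.UDB.PRA
import Pool.Agent.H45.UDB.PRB
import Pool.Agent.H70.UDB.PRC
import Pool.Agent.H14.UDB.PRD
import Pool.Agent.H63.UDB.RCE
import Pool.Agent.H77.UDB.RDN
import Pool.Agent.H58.UDB.SLE
import Pool.Agent.H58.UDB.UNE
import Pool.Agent.H80.UDB.VOL
import Pool.Agent.H4.UDB.BBE
import Pool.Agent.H11.UDB.DEG
import Pool.Agent.H88.UDB.ELI
import Pool.Agent.H68.UDB.KEY
import Pool.Agent.H39.UDB.LGE
import Pool.Agent.H54.UDB.MUE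
import Pool.Agent.H35.UDB.OFE
import Pool.Agent.H21.UDB.TAM
import Pool.Agent.H10.UDB.DIE
import Pool.Agent.H35.UDB.DMB
import Pool.Agent.H83.UDB.MNE
import Pool.Agent.H38.UDB.PKE
import Pool.Agent.H7.UDB.ALG
import Pool.Agent.H19.UDB.PKF

/-!
# Assembly of board udb_modules for MP_75a732_an, helper83
-/

set_option autoImplicit false

namespace Pool.Agent.H83.UDB.All

open Pool.Agent.H83.UE Pool.Agent.H83.UDA.All

theorem t_CNT : T_CNT := Pool.Agent.H1.UDB.pf_CNT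

theorem t_CSG : T_CSG := Pool.Agent.H1.UDB.pf_CSG

theorem t_CUT : T_CUT := Pool.Agent.H98.UDB.pf_CUT

theorem t_EXC : T_EXC := Pool.Agent.H67.UDB.pf_EXC t_IT t_BF

theorem t_FCT : T_FCT := Pool.Agent.H1.UDB.pf_FCT t_BF

theorem t_GNR : T_GNR := Pool.Agent.H14.UDB.pf_GNR

theorem t_HFB : T_HFB := Pool.Agent.H45.UDB.pf_HFB

theorem t_KMG : T_KMG := Pool.Agent.H82.UDB.pf_KMG t_IT t_SIM t_ARE t_MEA

theorem t_LE1 : T_LE1 := Pool.Agent.H11.UDB.pf_LE1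

theorem t_LE2 : T_LE2 := Pool.Agent.H1.UDB.pf_LE2

theorem t_LIN : T_LIN := Pool.Agent.H58.UDB.pf_LIN

theorem t_LJE : T_LJE := Pool.Agent.H86.UDB.pf_LJE t_BF t_LE1 t_LE2

theorem t_LJN : T_LJN := Pool.Agent.H88.UDB.pf_LJN

theorem t_PIG : T_PIG := Pool.Agent.H16.UDB.pf_PIG

theorem t_PRA : T_PRA := Pool.Agent.H19.UDB.pf_PRA

theorem t_PRB : T_PRB := Pool.Agent.H45.UDB.pf_PRB

theorem t_PRC : T_PRC := Pool.Agent.H70.UDB.pf_PRC t_PRA t_PRB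

theorem t_PRD : T_PRD := Pool.Agent.H14.UDB.pf_PRD

theorem t_RCE : T_RCE := Pool.Agent.H63.UDB.pf_RCE

theorem t_RDN : T_RDN := Pool.Agent.H77.UDB.pf_RDN

theorem t_SLE : T_SLE := Pool.Agent.H58.UDB.pf_SLE t_CY t_AC t_CO1 t_MON t_TF t_IT t_AF t_MEC

theorem t_UNE : T_UNE := Pool.Agent.H58.UDB.pf_UNE t_IT t_VN

theorem t_VOL : T_VOL := Pool.Agent.H80.UDB.pf_VOL t_IT t_FCT

theorem t_BBE : T_BBE := Pool.Agent.H4.UDB.pf_BBE t_IT t_GRN t_UNE t_CP t_SIM t_ARE t_MEA t_CON t_INT t_DV t_IBP t_CUT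

theorem t_DEG : T_DEG := Pool.Agent.H11.UDB.pf_DEG t_GNR t_CNT

theorem t_ELI : T_ELI := Pool.Agent.H88.UDB.pf_ELI t_HFB t_RDN

theorem t_KEY : T_KEY := Pool.Agent.H68.UDB.pf_KEY t_VOL t_KMG

theorem t_LGE : T_LGE := Pool.Agent.H39.UDB.LGE.pf_LGE t_IT t_FN t_EXC t_LJE t_RCE t_LJ0

theorem t_MUE : T_MUE := Pool.Agent.H54.UDB.MUE.pf_MUE t_UNE t_RU

theorem t_OFE : T_OFE := Pool.Agent.H35.UDB.pf_OFE t_IT t_CON t_MAR t_FP t_BBE t_MEA t_KEY t_PIG t_CSG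

theorem t_TAM : T_TAM := Pool.Agent.H21.UDB.pf_TAM t_LIN t_ELI t_LJN

theorem t_DIE : T_DIE := Pool.Agent.H10.UDB.pf_DIE t_IT t_UNE t_RU t_INT t_MAR t_FP t_MEA t_CON t_KEY t_PIG

theorem t_DMB : T_DMB := Pool.Agent.H35.UDB.pf_DMB t_LIN t_ELI

theorem t_MNE : T_MNE := Pool.Agent.H83.UDB.pf_MNE t_BD t_SW t_DIE t_OFE

theorem t_PKE : T_PKE := Pool.Agent.H38.UDB.pf_PKE t_LGE t_GRN t_MUE t_MNE t_BD t_SLE t_TAM t_TF t_IT

theorem t_ALG : T_ALG := Pool.Agent.H7.UDB.pf_ALG t_DMB t_PRC t_PRD t_DEG t_CO2 t_MON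

theorem t_PKF : T_PKF := Pool.Agent.H19.UDB.pf_PKF t_PKE t_ALG

end Pool.Agent.H83.UDB.All
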